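import Mathlib

/-!
# The set-splitting game on an abstract set (MP_053b7f_lc)

`S_0 = E`; the player who has just chosen `S_n` (player A for even `n`, with `S_0 = E` given, and
player B for odd `n`) splits `S_n` into two disjoint parts, and the other player chooses `S_{n+1}`
among the two parts.  Player A wins a play when the intersection of the `S_n` is empty.

We prove that player A has a winning strategy if and only if `E` is countable.  The direction from
countable `E` is the known one; the new part is that A has no winning strategy on any uncountable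
set, in particular none when `|E| = ℵ₁` and none when `|E| = 2^ℵ₀`.
-/

namespace Pool.Agent.Results.MP_053b7f_lc.NoWinningStrategy

open Set

universe u

variable {E : Type u}

/-- A play is a sequence `m : ℕ → Set E × Bool`.  At stage `n` the current set `S_n` is split into
the two disjoint parts `S_n ∩ (m n).1` and `S_n \ (m n).1` (every partition of `S_n` into two
disjoint sets is of this form), and the opponent chooses the first part when `(m n).2 = true` and
the second part when `(m n).2 = false`.  `stage m n` is the set `S_n` of the play `m`. -/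
def stage (m : ℕ → Set E × Bool) : ℕ → Set E
  | 0 => univ
  | n + 1 => if (m n).2 = true then stage m n ∩ (m n).1 else stage m n \ (m n).1

/-- The finite history of the play `m` before stage `n`: all splits and all choices made at the
stages `0, ..., n - 1`. -/
def hist (m : ℕ → Set E × Bool) (n : ℕ) : List (Set E × Bool) := (List.range n).map m

/-- A strategy for player A.  From the finite history of the play `split` tells A how to split
the current set, and from the history together with the split just made by B, `choose` tells A
which of the two parts to choose. -/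
structure Strategy (E : Type u) where
  split : List (Set E × Bool) → Set E
  choose : List (Set E × Bool) → Set E → Bool

/-- Player A follows the strategy `σ` in the play `m`.  At an even stage `n` it is A who splits
`S_n` (and B who chooses `S_{n+1}`); at an odd stage `n` it is B who splits `S_n` and A who
chooses `S_{n+1}`.  Player B is not restricted in any way. -/
def Follows (σ : Strategy E) (m : ℕ → Set E × Bool) : Prop :=
  ∀ n : ℕ, (Even n → (m n).1 = σ.split (hist m n)) ∧
    (Odd n → (m n).2 = σ.choose (hist m n) (m n).1)

/-- The strategy `σ` is winning for A: in every play in which A follows `σ`, the intersection of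
the sets `S_n`, `n ≥ 1`, is empty. -/
def Winning (σ : Strategy E) : Prop :=
  ∀ m : ℕ → Set E × Bool, Follows σ m → ⋂ n : ℕ, stage m (n + 1) = ∅

/-! ### The countable case (known) -/

theorem winning_of_countable [Countable E] : ∃ σ : Strategy E, Winning σ := by
  classical
  rcases isEmpty_or_nonempty E with hE | hE
  · refine ⟨⟨fun _ => univ, fun _ _ => true⟩, fun m _ => ?_⟩
    exact Set.eq_empty_of_isEmpty _
  · obtain ⟨e, he⟩ := exists_surjective_nat E
    refine ⟨⟨fun _ => univ, fun h P => decide (e (h.length / 2) ∉ P)⟩, fun m hm => ?_⟩
    rw [Set.eq_empty_iff_forall_notMem]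
    intro x hx
    obtain ⟨k, rfl⟩ := he x
    rw [Set.mem_iInter] at hx
    have h1 := hx (2 * k + 1)
    have h2 := (hm (2 * k + 1)).2 ⟨k, rfl⟩
    have hlen : (hist m (2 * k + 1)).length / 2 = k := by
      simp only [hist, List.length_map, List.length_range]
      omega
    simp only [hlen] at h2
    rw [stage, h2] at h1
    by_cases hk : e k ∈ (m (2 * k + 1)).1
    · simp [hk] at h1
    · simp [hk] at h1

/-! ### The uncountable case -/

/-- The position reached when B, always splitting by one of the sets `R n`, has made the moves
`b` (the newest move at the head; a move is B's choice of a part and the index of his split) and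
A has followed `σ`. -/
def pos (σ : Strategy E) (R : ℕ → Set E) : List (Bool × ℕ) → List (Set E × Bool)
  | [] => []
  | (c, n) :: b =>
      pos σ R b ++ [(σ.split (pos σ R b), c),
        (R n, σ.choose (pos σ R b ++ [(σ.split (pos σ R b), c)]) (R n))]

/-- A's answer to B's split `R n` at the position `b` after B's choice `c`. -/
def ans (σ : Strategy E) (R : ℕ → Set E) (b : List (Bool × ℕ)) (c : Bool) (n : ℕ) : Bool :=
  σ.choose (pos σ R b ++ [(σ.split (pos σ R b), c)]) (R n)

/-- The points that are lost whatever `R n` player B uses to split at `b` after his choice `c`. -/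
def killed (σ : Strategy E) (R : ℕ → Set E) (b : List (Bool × ℕ)) (c : Bool) : Set E :=
  {p | ∀ n, ¬ (p ∈ R n ↔ ans σ R b c n = true)}

/-- Every uncountable type has an uncountable subset that some map to `ℕ → Bool` separates. -/
theorem exists_separated (hE : ¬ Countable E) :
    ∃ (T : Set E) (f : E → ℕ → Bool), ¬ T.Countable ∧ Set.InjOn f T := by
  classical
  have h1 : Cardinal.aleph 1 ≤ Cardinal.mk E := by
    rw [← Cardinal.succ_aleph0, Order.succ_le_iff]
    by_contra h
    rw [not_lt, Cardinal.mk_le_aleph0_iff] at h
    exact hE h
  rw [Cardinal.le_mk_iff_exists_set] at h1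
  obtain ⟨T, hT⟩ := h1
  have hTc : ¬ T.Countable := by
    intro h
    have h2 : Cardinal.mk T ≤ Cardinal.aleph0 := Cardinal.le_aleph0_iff_set_countable.2 h
    rw [hT] at h2
    exact absurd h2 (not_le.2 Cardinal.aleph0_lt_aleph_one)
  have h3 : Cardinal.lift.{0} (Cardinal.mk T) ≤ Cardinal.lift.{u} (Cardinal.mk (ℕ → Bool)) := by
    rw [hT]
    have h4 : Cardinal.mk (ℕ → Bool) = Cardinal.continuum := by simp
    rw [h4]
    simpa using Cardinal.aleph_one_le_continuum
  obtain ⟨g⟩ := Cardinal.lift_mk_le'.1 h3
  refine ⟨T, fun x => if h : x ∈ T then g ⟨x, h⟩ else fun _ => false, hTc, ?_⟩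
  intro x hx y hy hxy
  simp only [hx, hy, dif_pos] at hxy
  have := g.injective hxy
  exact congrArg Subtype.val this

theorem killed_subsingleton (σ : Strategy E) (f : E → ℕ → Bool) (T : Set E)
    (hf : Set.InjOn f T) (b : List (Bool × ℕ)) (c : Bool) :
    (killed σ (fun n => {x | f x n = true}) b c ∩ T).Subsingleton := by
  rintro p ⟨hp, hpT⟩ q ⟨hq, hqT⟩
  apply hf hpT hqT
  funext n
  have h1 := hp n
  have h2 := hq n
  simp only [Set.mem_ofPred_eq] at h1 h2
  have key : (f p n = true) ↔ (f q n = true) := by tauto
  exact Bool.eq_iff_iff.2 key

theorem hist_succ (m : ℕ → Set E × Bool) (n : ℕ) : hist m (n + 1) = hist m n ++ [m n] := by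
  simp [hist, List.range_succ]

theorem not_winning_of_uncountable (hE : ¬ Countable E) (σ : Strategy E) : ¬ Winning σ := by
  classical
  intro hwin
  obtain ⟨T, f, hT, hf⟩ := exists_separated hE
  set R : ℕ → Set E := fun n => {x | f x n = true} with hR
  -- the points of `T` that are killed at some position form a countable set
  have hD : (⋃ bc : List (Bool × ℕ) × Bool, (killed σ R bc.1 bc.2 ∩ T)).Countable :=
    Set.countable_iUnion fun bc => (killed_subsingleton σ f T hf bc.1 bc.2).countable
  obtain ⟨p, hpT, hpD⟩ : ∃ p ∈ T, p ∉ ⋃ bc : List (Bool × ℕ) × Bool,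
      (killed σ R bc.1 bc.2 ∩ T) := by
    by_contra hcon
    push Not at hcon
    exact hT (hD.mono hcon)
  have hsurv : ∀ (b : List (Bool × ℕ)) (c : Bool), ∃ n, (p ∈ R n ↔ ans σ R b c n = true) := by
    intro b c
    by_contra hcon
    push Not at hcon
    apply hpD
    rw [Set.mem_iUnion]
    refine ⟨(b, c), ?_, hpT⟩
    intro n
    have := hcon n
    tauto
  choose N hN using hsurv
  -- B's choice at the position `b`
  let C : List (Bool × ℕ) → Bool := fun b => decide (p ∈ σ.split (pos σ R b))
  -- the positions of the play
  let B : ℕ → List (Bool × ℕ) := fun k => Nat.rec [] (fun _ b => (C b, N b (C b)) :: b) k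
  have hB0 : B 0 = [] := rfl
  have hBs : ∀ k, B (k + 1) = (C (B k), N (B k) (C (B k))) :: B k := fun k => rfl
  let m : ℕ → Set E × Bool := fun n =>
    if Even n then (σ.split (pos σ R (B (n / 2))), C (B (n / 2)))
    else (R (N (B (n / 2)) (C (B (n / 2)))),
      ans σ R (B (n / 2)) (C (B (n / 2))) (N (B (n / 2)) (C (B (n / 2)))))
  have hme : ∀ k, m (2 * k) = (σ.split (pos σ R (B k)), C (B k)) := by
    intro k
    have h1 : Even (2 * k) := even_two_mul k
    have h2 : 2 * k / 2 = k := by omega
    simp only [m, h1, if_true, h2]
  have hmo : ∀ k, m (2 * k + 1) = (R (N (B k) (C (B k))),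
      ans σ R (B k) (C (B k)) (N (B k) (C (B k)))) := by
    intro k
    have h1 : ¬ Even (2 * k + 1) := by
      rw [Nat.not_even_iff_odd]
      exact ⟨k, rfl⟩
    have h2 : (2 * k + 1) / 2 = k := by omega
    simp only [m, h1, if_false, h2]
  have hhe : ∀ k, hist m (2 * k) = pos σ R (B k) := by
    intro k
    induction k with
    | zero => simp [hist, hB0, pos]
    | succ k ih =>
      have e1 : 2 * (k + 1) = 2 * k + 1 + 1 := by ring
      rw [e1, hist_succ, hist_succ, ih, hme, hmo, hBs, pos, List.append_assoc]
      rfl
  have hho : ∀ k, hist m (2 * k + 1)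
      = pos σ R (B k) ++ [(σ.split (pos σ R (B k)), C (B k))] := by
    intro k
    rw [hist_succ, hhe, hme]
  have hfol : Follows σ m := by
    intro n
    constructor
    · rintro ⟨k, rfl⟩
      have e1 : k + k = 2 * k := by ring
      rw [e1, hme, hhe]
    · rintro ⟨k, rfl⟩
      rw [hho, hmo]
      rfl
  have hmem : ∀ n, p ∈ stage m n := by
    intro n
    induction n with
    | zero => exact Set.mem_univ p
    | succ n ih =>
      rcases Nat.even_or_odd' n with ⟨k, rfl | rfl⟩
      · rw [stage, hme]
        by_cases hp : p ∈ σ.split (pos σ R (B k))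
        · have : C (B k) = true := by simp [C, hp]
          simp only [this, if_true]
          exact ⟨ih, hp⟩
        · have : C (B k) = false := by simp [C, hp]
          simp only [this]
          exact ⟨ih, hp⟩
      · have h3 := hN (B k) (C (B k))
        rw [stage, hmo]
        by_cases hp : ans σ R (B k) (C (B k)) (N (B k) (C (B k))) = true
        · simp only [hp, if_true]
          exact ⟨ih, h3.2 hp⟩
        · simp only [hp]
          exact ⟨ih, fun h => hp (h3.1 h)⟩
  have hempty := hwin m hfol
  have : p ∈ ⋂ n : ℕ, stage m (n + 1) := Set.mem_iInter.2 fun n => hmem (n + 1)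
  rw [hempty] at this
  exact this

/-- Player A has a winning strategy in `G(E)` if and only if `E` is countable. -/
theorem result (E : Type u) : (∃ σ : Strategy E, Winning σ) ↔ Countable E := by
  constructor
  · rintro ⟨σ, hσ⟩
    by_contra hE
    exact not_winning_of_uncountable hE σ hσ
  · intro hE
    exact winning_of_countable

end Pool.Agent.Results.MP_053b7f_lc.NoWinningStrategy
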