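import Mathlib

/-!
# The approximation ratio of the `k`-lookahead auction does not tend to `1`

`ratio k ≤ 4/5` for every `k ≥ 2`.

The distribution: `n = k + 1` bidders. The last bidder always has value `1`. The values of `k - 1`
bidders (key bidders) are `1 + η (z_i + 1) / (2 L)`, where `z` is uniformly distributed on
`{0, ..., 2 L - 1}^(k-1)`. If `∑ z_i` is odd, the value of bidder `0` is `2`; if it is even, the value
of bidder `0` is `2` with probability `1 - 2 η` and `1 / η` with probability `2 η`.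

The mechanism which offers the item to bidder `0` for the price `2` (odd) or `1 / η` (even), and then to
the last bidder for the price `1`, has revenue `5/2 - η`. The `k` highest bidders are all but the last. If a
truthful mechanism which serves only them gives the item to a key bidder when the value of bidder `0` is
`2` and the sum is even, then by monotonicity it also does so when the value of this key bidder is the
next higher one, and this costs as much as it gains. Hence the revenue is at most `2 + o(1)`.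
-/

set_option autoImplicit false

open Finset Filter Topology

namespace Pool.Agent.Results.MP_0f9109_lc.RatioBounded

/-- A finitely supported distribution of the vector of the (positive) valuations of `n` bidders: the
vector is `v` with probability `w v` for `v ∈ supp`. -/
structure Dist (n : ℕ) where
  supp : Finset (Fin n → ℝ)
  w : (Fin n → ℝ) → ℝ
  w_nonneg : ∀ v ∈ supp, 0 ≤ w v
  w_sum : ∑ v ∈ supp, w v = 1
  pos : ∀ v ∈ supp, ∀ i, 0 < v i

/-- The expectation of `f v`. -/
def Dist.E {n : ℕ} (D : Dist n) (f : (Fin n → ℝ) → ℝ) : ℝ := ∑ v ∈ D.supp, D.w v * f v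

/-- Allocation probabilities `x v i` and expected payments `p v i` for the vector of bids `v`. -/
structure Mechanism (n : ℕ) where
  x : (Fin n → ℝ) → Fin n → ℝ
  p : (Fin n → ℝ) → Fin n → ℝ

/-- A single-item mechanism which is truthful in expectation and individually rational. Only positive
valuations and bids are considered. -/
structure Mechanism.Valid {n : ℕ} (M : Mechanism n) : Prop where
  nonneg : ∀ v, (∀ i, 0 < v i) → ∀ i, 0 ≤ M.x v i
  sum_le : ∀ v, (∀ i, 0 < v i) → ∑ i, M.x v i ≤ 1
  truthful : ∀ v, (∀ i, 0 < v i) → ∀ i, ∀ b, 0 < b →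
    M.x (Function.update v i b) i * v i - M.p (Function.update v i b) i ≤ M.x v i * v i - M.p v i
  rational : ∀ v, (∀ i, 0 < v i) → ∀ i, 0 ≤ M.x v i * v i - M.p v i

/-- The mechanism serves only bidders in `K`. -/
def Mechanism.ServesOnly {n : ℕ} (M : Mechanism n) (K : Finset (Fin n)) : Prop :=
  ∀ v, (∀ i, 0 < v i) → ∀ i, i ∉ K → M.x v i = 0 ∧ M.p v i = 0

/-- The sum of the payments. -/
def Mechanism.rev {n : ℕ} (M : Mechanism n) (v : Fin n → ℝ) : ℝ := ∑ i, M.p v i

/-- The largest expected revenue of a mechanism which is truthful in expectation and individually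
rational. -/
noncomputable def OPT {n : ℕ} (D : Dist n) : ℝ :=
  sSup {r : ℝ | ∃ M : Mechanism n, M.Valid ∧ r = D.E M.rev}

open Classical in
/-- The set of the `k` highest bidders (of all bidders, if there are at most `k`), with ties broken by
index: `i` is in it if fewer than `k` bidders `j` have `v j > v i`, or `v j = v i` and `j < i`. -/
noncomputable def top {n : ℕ} (k : ℕ) (v : Fin n → ℝ) : Finset (Fin n) :=
  univ.filter fun i => (univ.filter fun j => v i < v j ∨ v j = v i ∧ j < i).card < k

/-- For every set `K` of bidders a mechanism `M K` which is truthful in expectation and individually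
rational and serves only bidders in `K`. It may depend on the valuations of the other bidders; the
truthfulness of `M K` concerns the bidders in `K`, the other ones get and pay nothing. -/
def IsFamily {n : ℕ} (M : Finset (Fin n) → Mechanism n) : Prop :=
  ∀ K, (M K).Valid ∧ (M K).ServesOnly K

/-- The expected revenue if the mechanism `M K` is used when `K` is the set of the `k` highest
bidders. -/
noncomputable def famRev {n : ℕ} (k : ℕ) (D : Dist n) (M : Finset (Fin n) → Mechanism n) : ℝ :=
  D.E fun v => (M (top k v)).rev v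

/-- The expected revenue of the `k`-lookahead mechanism: for every set `K` of the `k` highest bidders and
all valuations of the other bidders, the mechanism for the bidders in `K` is revenue-maximizing for the
conditional distribution of their valuations (so that the total is maximal too). -/
noncomputable def revLookahead {n : ℕ} (k : ℕ) (D : Dist n) : ℝ :=
  sSup {r : ℝ | ∃ M : Finset (Fin n) → Mechanism n, IsFamily M ∧ r = famRev k D M}

/-- The approximation ratio `ρ_k` of the `k`-lookahead mechanism. -/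
noncomputable def ratio (k : ℕ) : ℝ :=
  sInf {r : ℝ | ∃ (n : ℕ) (D : Dist n), 0 < OPT D ∧ r = revLookahead k D / OPT D}

/-! ### Generalities -/

theorem E_mono {n : ℕ} (D : Dist n) {f g : (Fin n → ℝ) → ℝ} (h : ∀ v ∈ D.supp, f v ≤ g v) :
    D.E f ≤ D.E g :=
  Finset.sum_le_sum fun v hv => mul_le_mul_of_nonneg_left (h v hv) (D.w_nonneg v hv)

theorem Mechanism.Valid.rev_le {n : ℕ} {M : Mechanism n} (hM : M.Valid) {v : Fin n → ℝ}
    (hv : ∀ i, 0 < v i) : M.rev v ≤ ∑ i, v i := by
  refine Finset.sum_le_sum fun i _ => ?_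
  have h1 := hM.rational v hv i
  have h2 : M.x v i ≤ 1 := (Finset.single_le_sum (f := M.x v) (fun j _ => hM.nonneg v hv j)
    (Finset.mem_univ i)).trans (hM.sum_le v hv)
  have h3 := mul_le_mul_of_nonneg_right h2 (hv i).le
  linarith

theorem bdd_opt {n : ℕ} (D : Dist n) :
    BddAbove {r : ℝ | ∃ M : Mechanism n, M.Valid ∧ r = D.E M.rev} := by
  refine ⟨D.E fun v => ∑ i, v i, ?_⟩
  rintro r ⟨M, hM, rfl⟩
  exact E_mono D fun v hv => hM.rev_le (D.pos v hv)

theorem bdd_rev {n : ℕ} (k : ℕ) (D : Dist n) :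
    BddAbove {r : ℝ | ∃ M : Finset (Fin n) → Mechanism n, IsFamily M ∧ r = famRev k D M} := by
  refine ⟨D.E fun v => ∑ i, v i, ?_⟩
  rintro r ⟨M, hM, rfl⟩
  exact E_mono D fun v hv => (hM _).1.rev_le (D.pos v hv)

/-- the mechanism which does nothing -/
def zeroM (n : ℕ) : Mechanism n := ⟨fun _ _ => 0, fun _ _ => 0⟩

theorem zeroM_family (n : ℕ) : IsFamily fun _ : Finset (Fin n) => zeroM n := by
  intro K
  refine ⟨⟨fun v _ i => le_rfl, fun v _ => by simp [zeroM], fun v _ i b _ => by simp [zeroM],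
    fun v _ i => by simp [zeroM]⟩, fun v _ i _ => ⟨rfl, rfl⟩⟩

theorem famRev_zero {n : ℕ} (k : ℕ) (D : Dist n) : famRev k D (fun _ => zeroM n) = 0 := by
  simp [famRev, Dist.E, Mechanism.rev, zeroM]

theorem revLookahead_nonneg {n : ℕ} (k : ℕ) (D : Dist n) : 0 ≤ revLookahead k D :=
  le_csSup (bdd_rev k D) ⟨_, zeroM_family n, (famRev_zero k D).symm⟩

theorem revLookahead_le {n : ℕ} (k : ℕ) (D : Dist n) {A : ℝ}
    (h : ∀ M, IsFamily M → famRev k D M ≤ A) : revLookahead k D ≤ A := by
  refine csSup_le ⟨_, _, zeroM_family n, rfl⟩ ?_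
  rintro r ⟨M, hM, rfl⟩
  exact h M hM

theorem le_OPT {n : ℕ} (D : Dist n) {M : Mechanism n} (hM : M.Valid) : D.E M.rev ≤ OPT D :=
  le_csSup (bdd_opt D) ⟨M, hM, rfl⟩

theorem ratio_le {n : ℕ} (k : ℕ) (D : Dist n) {A B : ℝ} (hB : 0 < B) (h1 : revLookahead k D ≤ A)
    (h2 : B ≤ OPT D) : ratio k ≤ A / B := by
  have h3 : 0 < OPT D := hB.trans_le h2
  have h4 : ratio k ≤ revLookahead k D / OPT D := by
    refine csInf_le ⟨0, ?_⟩ ⟨n, D, h3, rfl⟩
    rintro r ⟨n', D', h, rfl⟩
    exact div_nonneg (revLookahead_nonneg k D') h.le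
  refine h4.trans ?_
  have h5 : 0 ≤ A := (revLookahead_nonneg k D).trans h1
  exact div_le_div₀ h5 h1 hB h2

theorem Mechanism.Valid.mono {n : ℕ} {M : Mechanism n} (hM : M.Valid) {v : Fin n → ℝ}
    (hv : ∀ i, 0 < v i) (i : Fin n) {b : ℝ} (hb : v i ≤ b) :
    M.x v i ≤ M.x (Function.update v i b) i := by
  rcases hb.eq_or_lt with h | h
  · rw [← h, Function.update_eq_self]
  · have hb0 : 0 < b := (hv i).trans h
    have hv' : ∀ j, 0 < Function.update v i b j := by
      intro j
      by_cases hj : j = i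
      · subst hj; simpa using hb0
      · rw [Function.update_of_ne hj]; exact hv j
    have t1 := hM.truthful v hv i b hb0
    have t2 := hM.truthful _ hv' i (v i) (hv i)
    rw [Function.update_idem, Function.update_eq_self, Function.update_self] at t2
    by_contra hc
    push Not at hc
    have := mul_pos (sub_pos.2 hc) (sub_pos.2 h)
    nlinarith

/-- The law of a random vector on a finite probability space. -/
noncomputable def law {n : ℕ} {Ω : Type} [Fintype Ω] (q : Ω → ℝ) (hq : ∀ ω, 0 ≤ q ω)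
    (hq1 : ∑ ω, q ω = 1) (V : Ω → Fin n → ℝ) (hV : ∀ ω i, 0 < V ω i) : Dist n := by
  classical
  exact
  { supp := Finset.univ.image V
    w := fun v => ∑ ω, if V ω = v then q ω else 0
    w_nonneg := fun v _ => Finset.sum_nonneg fun ω _ => by
      split_ifs
      · exact hq ω
      · exact le_rfl
    w_sum := by
      rw [Finset.sum_comm]
      rw [← hq1]
      refine Finset.sum_congr rfl fun ω _ => ?_
      rw [Finset.sum_ite_eq, if_pos (Finset.mem_image_of_mem V (Finset.mem_univ ω))]
    pos := fun v hv i => by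
      obtain ⟨ω, -, rfl⟩ := Finset.mem_image.1 hv
      exact hV ω i }

theorem law_E {n : ℕ} {Ω : Type} [Fintype Ω] (q : Ω → ℝ) (hq : ∀ ω, 0 ≤ q ω)
    (hq1 : ∑ ω, q ω = 1) (V : Ω → Fin n → ℝ) (hV : ∀ ω i, 0 < V ω i) (f : (Fin n → ℝ) → ℝ) :
    (law q hq hq1 V hV).E f = ∑ ω, q ω * f (V ω) := by
  classical
  unfold Dist.E law
  simp only [Finset.sum_mul]
  rw [Finset.sum_comm]
  refine Finset.sum_congr rfl fun ω _ => ?_
  simp only [ite_mul, zero_mul]
  rw [Finset.sum_ite_eq, if_pos (Finset.mem_image_of_mem V (Finset.mem_univ ω))]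

theorem law_supp {n : ℕ} {Ω : Type} [Fintype Ω] (q : Ω → ℝ) (hq : ∀ ω, 0 ≤ q ω)
    (hq1 : ∑ ω, q ω = 1) (V : Ω → Fin n → ℝ) (hV : ∀ ω i, 0 < V ω i) {v : Fin n → ℝ}
    (hv : v ∈ (law q hq hq1 V hV).supp) : ∃ ω, V ω = v := by
  classical
  unfold law at hv
  obtain ⟨ω, -, h⟩ := Finset.mem_image.1 hv
  exact ⟨ω, h⟩

/-! ### Alternating sums -/

theorem alt_sum (y : ℕ → ℝ) (hy : Monotone y) (L : ℕ) :
    -(y (2 * L) - y 0) ≤ ∑ j ∈ range (2 * L), (-1 : ℝ) ^ j * y j ∧
      ∑ j ∈ range (2 * L), (-1 : ℝ) ^ j * y j ≤ 0 := by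
  induction L with
  | zero => simp
  | succ L ih =>
    rw [show 2 * (L + 1) = 2 * L + 1 + 1 by ring, sum_range_succ, sum_range_succ]
    have h1 : (-1 : ℝ) ^ (2 * L) = 1 := by rw [pow_mul]; simp
    have h2 : (-1 : ℝ) ^ (2 * L + 1) = -1 := by rw [pow_succ, h1]; ring
    rw [h1, h2]
    have h3 : y (2 * L) ≤ y (2 * L + 1) := hy (Nat.le_succ _)
    have h4 : y (2 * L + 1) ≤ y (2 * L + 1 + 1) := hy (Nat.le_succ _)
    constructor <;> linarith [ih.1, ih.2]

theorem line_bound {L : ℕ} (y : Fin (2 * L) → ℝ) (hy : Monotone y) (h0 : ∀ j, 0 ≤ y j)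
    (h1 : ∀ j, y j ≤ 1) {t : ℝ} (ht : t = 1 ∨ t = -1) :
    ∑ j : Fin (2 * L), t * (-1 : ℝ) ^ (j : ℕ) * y j ≤ 1 := by
  set y' : ℕ → ℝ := fun j => if h : j < 2 * L then y ⟨j, h⟩ else 1 with hy'
  have hm : Monotone y' := by
    intro a b hab
    simp only [hy']
    by_cases hb : b < 2 * L
    · rw [dif_pos hb, dif_pos (lt_of_le_of_lt hab hb)]
      exact hy hab
    · rw [dif_neg hb]
      split_ifs
      · exact h1 _
      · exact le_rfl
  have e : ∑ j : Fin (2 * L), t * (-1 : ℝ) ^ (j : ℕ) * y j =
      t * ∑ j ∈ range (2 * L), (-1 : ℝ) ^ j * y' j := by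
    rw [Finset.sum_range, Finset.mul_sum]
    refine Finset.sum_congr rfl fun j _ => ?_
    simp only [hy', Fin.is_lt, dif_pos, Fin.eta]
    ring
  rw [e]
  obtain ⟨g1, g2⟩ := alt_sum y' hm L
  have g3 : y' (2 * L) = 1 := by simp [hy']
  have g4 : 0 ≤ y' 0 := by
    simp only [hy']
    split_ifs
    · exact h0 _
    · exact zero_le_one
  rcases ht with rfl | rfl <;> linarith

/-- The number with digits `z`, up to parity. -/
noncomputable def sgn {m N : ℕ} (z : Fin m → Fin N) : ℝ := (-1) ^ (∑ i, (z i : ℕ))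

theorem sgn_cases {m N : ℕ} (z : Fin m → Fin N) : sgn z = 1 ∨ sgn z = -1 := neg_one_pow_eq_or ℝ _

theorem sgn_update {m N : ℕ} (z : Fin m → Fin N) (i : Fin m) (j : Fin N) :
    sgn (Function.update z i j) =
      (-1) ^ (∑ l ∈ univ.erase i, (z l : ℕ)) * (-1) ^ (j : ℕ) := by
  unfold sgn
  rw [← pow_add, ← Finset.sum_erase_add univ _ (Finset.mem_univ i), Function.update_self]
  congr 2
  refine Finset.sum_congr rfl fun l hl => ?_
  rw [Function.update_of_ne (Finset.ne_of_mem_erase hl)]

theorem average {m N : ℕ} (F : (Fin m → Fin N) → ℝ) (i : Fin m) :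
    ∑ z : Fin m → Fin N, ∑ j : Fin N, F (Function.update z i j) = N * ∑ z, F z := by
  have h1 : ∑ z : Fin m → Fin N, ∑ j : Fin N, F (Function.update z i j) =
      ∑ q : (Fin m → Fin N) × Fin N, F (Function.update q.1 i q.2) :=
    (Fintype.sum_prod_type (fun q : (Fin m → Fin N) × Fin N => F (Function.update q.1 i q.2))).symm
  have h2 : ∑ q : (Fin m → Fin N) × Fin N, F (Function.update q.1 i q.2) =
      ∑ q : (Fin m → Fin N) × Fin N, F q.1 := by
    refine Fintype.sum_equiv (Function.Involutive.toPerm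
      (fun q : (Fin m → Fin N) × Fin N => (Function.update q.1 i q.2, q.1 i)) ?_) _ _ ?_
    · rintro ⟨z, j⟩
      simp
    · rintro ⟨z, j⟩
      rfl
  rw [h1, h2, Fintype.sum_prod_type]
  simp [Finset.mul_sum]

theorem sum_sgn {m L : ℕ} (i : Fin m) (hL : 0 < L) : ∑ z : Fin m → Fin (2 * L), sgn z = 0 := by
  have h := average (m := m) (N := 2 * L) sgn i
  have h1 : ∀ z : Fin m → Fin (2 * L), ∑ j : Fin (2 * L), sgn (Function.update z i j) = 0 := by
    intro z
    simp only [sgn_update]
    rw [← Finset.mul_sum]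
    have h2 : ∑ j : Fin (2 * L), (-1 : ℝ) ^ (j : ℕ) = 0 := by
      rw [← Finset.sum_range (fun j => (-1 : ℝ) ^ j)]
      have := alt_sum (fun _ => 1) monotone_const L
      simp only [mul_one, sub_self, neg_zero] at this
      exact le_antisymm this.2 this.1
    rw [h2, mul_zero]
  simp only [h1, Finset.sum_const_zero] at h
  have h3 : ((2 * L : ℕ) : ℝ) ≠ 0 := by
    have : 0 < 2 * L := by omega
    exact_mod_cast this.ne'
  exact (mul_eq_zero.1 h.symm).resolve_left h3

theorem sum_sgn_mul {m L : ℕ} (i : Fin m) (hL : 0 < L) (y : (Fin m → Fin (2 * L)) → ℝ)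
    (h0 : ∀ z, 0 ≤ y z) (h1 : ∀ z, y z ≤ 1)
    (hy : ∀ z, Monotone fun j => y (Function.update z i j)) :
    ∑ z : Fin m → Fin (2 * L), sgn z * y z ≤
      (Fintype.card (Fin m → Fin (2 * L)) : ℝ) / (2 * L : ℕ) := by
  have h := average (m := m) (N := 2 * L) (fun z => sgn z * y z) i
  have h3 : (0 : ℝ) < ((2 * L : ℕ) : ℝ) := by
    have : 0 < 2 * L := by omega
    exact_mod_cast this
  rw [le_div_iff₀ h3, mul_comm, ← h]
  have h4 : ∀ z : Fin m → Fin (2 * L), ∑ j : Fin (2 * L),
      sgn (Function.update z i j) * y (Function.update z i j) ≤ 1 := by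
    intro z
    simp only [sgn_update]
    exact line_bound (fun j => y (Function.update z i j)) (hy z) (fun j => h0 _) (fun j => h1 _)
      (neg_one_pow_eq_or ℝ _)
  calc _ ≤ ∑ z : Fin m → Fin (2 * L), (1 : ℝ) := Finset.sum_le_sum fun z _ => h4 z
    _ = _ := by simp

/-! ### The vectors of valuations -/

/-- The index of key bidder `i`. -/
def key {m : ℕ} (i : Fin m) : Fin (m + 2) := i.castSucc.succ

/-- Value `h` of bidder `0`, values `c` of the key bidders, value `1` of the last bidder. -/
def val {m : ℕ} (h : ℝ) (c : Fin m → ℝ) : Fin (m + 2) → ℝ :=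
  Fin.cons h (Fin.snoc (α := fun _ => ℝ) c 1 : Fin (m + 1) → ℝ)

variable {m : ℕ}

@[simp] theorem val_zero (h : ℝ) (c : Fin m → ℝ) : val h c 0 = h := rfl

@[simp] theorem val_key (h : ℝ) (c : Fin m → ℝ) (i : Fin m) : val h c (key i) = c i := by
  simp [val, key]

@[simp] theorem val_last (h : ℝ) (c : Fin m → ℝ) : val h c (Fin.last (m + 1)) = 1 := by
  rw [← Fin.succ_last]
  simp [val]

theorem sum_split (f : Fin (m + 2) → ℝ) :
    ∑ i, f i = f 0 + (∑ i : Fin m, f (key i) + f (Fin.last (m + 1))) := by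
  rw [Fin.sum_univ_succ, Fin.sum_univ_castSucc]
  rfl

theorem fin_cases (j : Fin (m + 2)) : j = 0 ∨ (∃ i : Fin m, j = key i) ∨ j = Fin.last (m + 1) := by
  refine Fin.cases (Or.inl rfl) (fun j => ?_) j
  refine Fin.lastCases (Or.inr (Or.inr rfl)) (fun i => ?_) j
  exact Or.inr (Or.inl ⟨i, rfl⟩)

theorem key_ne_zero (i : Fin m) : key i ≠ 0 := Fin.succ_ne_zero _

theorem key_ne_last (i : Fin m) : key i ≠ Fin.last (m + 1) := by
  intro h
  rw [← Fin.succ_last] at h
  exact (Fin.castSucc_ne_last i) (Fin.succ_injective _ h)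

theorem zero_ne_last : (0 : Fin (m + 2)) ≠ Fin.last (m + 1) := by
  rw [← Fin.succ_last]
  exact (Fin.succ_ne_zero _).symm

theorem key_inj {i j : Fin m} (h : key i = key j) : i = j :=
  Fin.castSucc_injective _ (Fin.succ_injective _ h)

theorem update_zero (h b : ℝ) (c : Fin m → ℝ) : Function.update (val h c) 0 b = val b c := by
  funext j
  rcases fin_cases j with rfl | ⟨i, rfl⟩ | rfl
  · simp
  · rw [Function.update_of_ne (key_ne_zero i)]; simp
  · rw [Function.update_of_ne zero_ne_last.symm]; simp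

theorem update_key (h b : ℝ) (c : Fin m → ℝ) (i : Fin m) :
    Function.update (val h c) (key i) b = val h (Function.update c i b) := by
  funext j
  rcases fin_cases j with rfl | ⟨l, rfl⟩ | rfl
  · rw [Function.update_of_ne (key_ne_zero i).symm]; simp
  · by_cases hl : l = i
    · subst hl; simp
    · rw [Function.update_of_ne (fun h => hl (key_inj h)), val_key, val_key,
        Function.update_of_ne hl]
  · rw [Function.update_of_ne (key_ne_last i).symm]; simp

/-- The values of the key bidders. -/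
noncomputable def kv (η : ℝ) {L : ℕ} (z : Fin m → Fin (2 * L)) : Fin m → ℝ := fun i =>
  1 + η * ((z i : ℕ) + 1) / (2 * L : ℕ)

section Param

variable {L : ℕ} (hL : 0 < L) {η : ℝ} (h0 : 0 < η) (h1 : η ≤ 1 / 4)

include hL

theorem twoL_pos : (0 : ℝ) < (2 * L : ℕ) := by
  have : 0 < 2 * L := by omega
  exact_mod_cast this

include h0

theorem kv_gt (z : Fin m → Fin (2 * L)) (i : Fin m) : 1 < kv η z i := by
  unfold kv
  have := twoL_pos hL
  have : 0 < η * ((z i : ℕ) + 1) / (2 * L : ℕ) := by positivity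
  linarith

theorem kv_le (z : Fin m → Fin (2 * L)) (i : Fin m) : kv η z i ≤ 1 + η := by
  unfold kv
  have h2 := twoL_pos hL
  have h3 : ((z i : ℕ) : ℝ) + 1 ≤ (2 * L : ℕ) := by exact_mod_cast (z i).is_lt
  have h4 : η * ((z i : ℕ) + 1) / (2 * L : ℕ) ≤ η := by
    rw [div_le_iff₀ h2]
    exact mul_le_mul_of_nonneg_left h3 h0.le
  linarith

theorem kv_inj {z z' : Fin m → Fin (2 * L)} (h : kv η z = kv η z') : z = z' := by
  funext i
  have h2 := congrFun h i
  unfold kv at h2
  have h3 := twoL_pos hL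
  have h4 : η * ((z i : ℕ) + 1) / (2 * L : ℕ) = η * ((z' i : ℕ) + 1) / (2 * L : ℕ) := by linarith
  rw [div_left_inj' h3.ne'] at h4
  have h5 := mul_left_cancel₀ h0.ne' h4
  have h6 : ((z i : ℕ) : ℝ) = (z' i : ℕ) := by linarith
  exact Fin.ext (by exact_mod_cast h6)

omit hL h0 in
theorem kv_update (z : Fin m → Fin (2 * L)) (i : Fin m) (j : Fin (2 * L)) :
    kv η (Function.update z i j) =
      Function.update (kv η z) i (1 + η * ((j : ℕ) + 1) / (2 * L : ℕ)) := by
  funext l
  by_cases hl : l = i
  · subst hl; simp [kv]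
  · simp [kv, Function.update_of_ne hl]

theorem val_pos {h : ℝ} (hh : 0 < h) (z : Fin m → Fin (2 * L)) (j : Fin (m + 2)) :
    0 < val h (kv η z) j := by
  rcases fin_cases j with rfl | ⟨i, rfl⟩ | rfl
  · simpa using hh
  · rw [val_key]; exact zero_lt_one.trans (kv_gt hL h0 z i)
  · simp

omit hL h0 in
open Classical in
/-- The price which is offered to bidder `0`. -/
noncomputable def price (η : ℝ) (L : ℕ) (v : Fin (m + 2) → ℝ) : ℝ :=
  if ∃ z : Fin m → Fin (2 * L), (∀ i, v (key i) = kv η z i) ∧ sgn z = -1 then 2 else 1 / η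

omit hL h0 in
theorem price_update_zero (v : Fin (m + 2) → ℝ) (b : ℝ) :
    price η L (Function.update v 0 b) = price η L v := by
  unfold price
  simp only [Function.update_of_ne (key_ne_zero _)]

omit hL h0 in
theorem price_update_last (v : Fin (m + 2) → ℝ) (b : ℝ) :
    price η L (Function.update v (Fin.last (m + 1)) b) = price η L v := by
  unfold price
  simp only [Function.update_of_ne (key_ne_last _)]

omit hL in
theorem price_pos (v : Fin (m + 2) → ℝ) : 0 < price η L v := by
  unfold price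
  split_ifs
  · norm_num
  · positivity

omit hL h0 in
theorem price_odd {h : ℝ} {z : Fin m → Fin (2 * L)} (hz : sgn z = -1) :
    price η L (val h (kv η z)) = 2 := by
  unfold price
  rw [if_pos ⟨z, fun i => by simp, hz⟩]

theorem price_even {h : ℝ} {z : Fin m → Fin (2 * L)} (hz : sgn z = 1) :
    price η L (val h (kv η z)) = 1 / η := by
  unfold price
  rw [if_neg]
  rintro ⟨z', h2, h3⟩
  have h4 : kv η z = kv η z' := by
    funext i
    rw [← h2 i, val_key]
  rw [kv_inj hL h0 h4, h3] at hz
  norm_num at hz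

omit hL h0 in
open Classical in
/-- Offer the item to bidder `0` for the price `price`, then to the last bidder for the price `1`. -/
noncomputable def offer (m : ℕ) (η : ℝ) (L : ℕ) : Mechanism (m + 2) where
  x v j := if j = 0 then (if price η L v ≤ v 0 then 1 else 0) else
    if j = Fin.last (m + 1) then (if price η L v ≤ v 0 then 0 else
      if 1 ≤ v (Fin.last (m + 1)) then 1 else 0) else 0
  p v j := if j = 0 then (if price η L v ≤ v 0 then price η L v else 0) else
    if j = Fin.last (m + 1) then (if price η L v ≤ v 0 then 0 else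
      if 1 ≤ v (Fin.last (m + 1)) then 1 else 0) else 0

omit hL h0 in
theorem offer_valid : (offer m η L).Valid where
  nonneg v _ i := by
    unfold offer
    simp only
    split_ifs <;> norm_num
  sum_le v _ := by
    rw [sum_split]
    unfold offer
    simp only [if_true, key_ne_zero, key_ne_last, if_false, zero_ne_last.symm,
      Finset.sum_const_zero, zero_add]
    split_ifs <;> norm_num
  truthful v hv i b hb := by
    rcases fin_cases i with rfl | ⟨l, rfl⟩ | rfl
    · unfold offer
      simp only [if_true, price_update_zero, Function.update_self]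
      split_ifs <;> linarith
    · unfold offer
      simp only [key_ne_zero, key_ne_last, if_false]
      exact le_rfl
    · unfold offer
      simp only [if_true, price_update_last, Function.update_self, zero_ne_last.symm, if_false,
        Function.update_of_ne zero_ne_last]
      split_ifs <;> linarith
  rational v hv i := by
    rcases fin_cases i with rfl | ⟨l, rfl⟩ | rfl
    · unfold offer
      simp only [if_true]
      split_ifs <;> linarith
    · unfold offer
      simp only [key_ne_zero, key_ne_last, if_false]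
      simp
    · unfold offer
      simp only [if_true, zero_ne_last.symm, if_false]
      split_ifs <;> linarith

omit hL h0 in
theorem offer_rev (v : Fin (m + 2) → ℝ) : (offer m η L).rev v =
    if price η L v ≤ v 0 then price η L v else if 1 ≤ v (Fin.last (m + 1)) then 1 else 0 := by
  unfold Mechanism.rev
  rw [sum_split]
  unfold offer
  simp only [if_true, key_ne_zero, key_ne_last, if_false, zero_ne_last.symm,
    Finset.sum_const_zero, zero_add]
  split_ifs <;> simp

include h1

/-- The revenue of `offer`, for a given `z`. -/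
theorem offer_z (z : Fin m → Fin (2 * L)) :
    (1 - η * (1 + sgn z)) * (offer m η L).rev (val 2 (kv η z)) +
      η * (1 + sgn z) * (offer m η L).rev (val (1 / η) (kv η z)) =
      2 + (1 - 2 * η) * (1 + sgn z) / 2 := by
  have h4 : 4 ≤ 1 / η := by
    rw [le_div_iff₀ h0]
    linarith
  rw [offer_rev, offer_rev]
  rcases sgn_cases z with hz | hz
  · rw [price_even hL h0 hz, price_even hL h0 hz, hz]
    simp only [val_zero, val_last, le_refl, if_true]
    rw [if_neg (by linarith)]
    field_simp
    ring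
  · rw [price_odd hz, price_odd hz, hz]
    simp only [val_zero, val_last, le_refl, if_true]
    ring

/-- The revenue of a mechanism for all bidders but the last one, for a given `z`. -/
theorem rev_z {M : Mechanism (m + 2)} (hM : M.Valid)
    (hl : ∀ v, (∀ i, 0 < v i) → M.x v (Fin.last (m + 1)) = 0 ∧ M.p v (Fin.last (m + 1)) = 0)
    (z : Fin m → Fin (2 * L)) :
    (1 - η * (1 + sgn z)) * M.rev (val 2 (kv η z)) +
      η * (1 + sgn z) * M.rev (val (1 / η) (kv η z)) ≤
      2 + (1 - η) * ∑ i : Fin m, sgn z * M.x (val 2 (kv η z)) (key i) := by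
  have h4 : 4 ≤ 1 / η := by
    rw [le_div_iff₀ h0]
    linarith
  have p2 : ∀ j : Fin (m + 2), 0 < val 2 (kv η z) j := val_pos hL h0 (by norm_num) z
  have pH : ∀ j : Fin (m + 2), 0 < val (1 / η) (kv η z) j := val_pos hL h0 (by positivity) z
  have key_le : ∀ h : ℝ, (∀ j : Fin (m + 2), 0 < val h (kv η z) j) →
      ∑ i : Fin m, M.p (val h (kv η z)) (key i) ≤
        (1 + η) * ∑ i : Fin m, M.x (val h (kv η z)) (key i) := by
    intro h hp
    rw [Finset.mul_sum]
    refine Finset.sum_le_sum fun i _ => ?_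
    have a1 := hM.rational _ hp (key i)
    have a2 := hM.nonneg _ hp (key i)
    have a3 := kv_le hL h0 z i
    rw [val_key] at a1
    have a4 := mul_le_mul_of_nonneg_left a3 a2
    linarith
  have r2 := key_le 2 p2
  have rH := key_le (1 / η) pH
  have s2 := hM.sum_le _ p2
  have sH := hM.sum_le _ pH
  rw [sum_split, (hl _ p2).1, add_zero] at s2
  rw [sum_split, (hl _ pH).1, add_zero] at sH
  have e2 : M.rev (val 2 (kv η z)) = M.p (val 2 (kv η z)) 0 +
      ∑ i : Fin m, M.p (val 2 (kv η z)) (key i) := by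
    unfold Mechanism.rev
    rw [sum_split, (hl _ p2).2, add_zero]
  have eH : M.rev (val (1 / η) (kv η z)) = M.p (val (1 / η) (kv η z)) 0 +
      ∑ i : Fin m, M.p (val (1 / η) (kv η z)) (key i) := by
    unfold Mechanism.rev
    rw [sum_split, (hl _ pH).2, add_zero]
  have i2 := hM.rational _ p2 0
  have t := hM.truthful _ pH 0 2 (by norm_num)
  rw [update_zero] at t
  simp only [val_zero] at i2 t
  have X2 : 0 ≤ ∑ i : Fin m, M.x (val 2 (kv η z)) (key i) :=
    Finset.sum_nonneg fun i _ => hM.nonneg _ p2 _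
  have XH : 0 ≤ ∑ i : Fin m, M.x (val (1 / η) (kv η z)) (key i) :=
    Finset.sum_nonneg fun i _ => hM.nonneg _ pH _
  rw [e2, eH, ← Finset.mul_sum]
  generalize ∑ i : Fin m, M.p (val 2 (kv η z)) (key i) = P2 at *
  generalize ∑ i : Fin m, M.p (val (1 / η) (kv η z)) (key i) = PH at *
  generalize ∑ i : Fin m, M.x (val 2 (kv η z)) (key i) = Y2 at *
  generalize ∑ i : Fin m, M.x (val (1 / η) (kv η z)) (key i) = YH at *
  generalize M.x (val 2 (kv η z)) 0 = x2 at *
  generalize M.x (val (1 / η) (kv η z)) 0 = xH at *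
  generalize M.p (val 2 (kv η z)) 0 = q2 at *
  generalize M.p (val (1 / η) (kv η z)) 0 = qH at *
  rcases sgn_cases z with hz | hz
  · rw [hz]
    -- η t
    have t' : x2 - η * q2 ≤ xH - η * qH := by
      have := mul_le_mul_of_nonneg_left t h0.le
      have e1 : η * (x2 * (1 / η) - q2) = x2 - η * q2 := by field_simp
      have e2 : η * (xH * (1 / η) - qH) = xH - η * qH := by field_simp
      rw [e1, e2] at this
      exact this
    have b1 : (1 - 2 * η) * P2 ≤ (1 - 2 * η) * ((1 + η) * Y2) :=
      mul_le_mul_of_nonneg_left r2 (by linarith)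
    have b2 : 2 * η * PH ≤ 2 * η * ((1 + η) * YH) := mul_le_mul_of_nonneg_left rH (by linarith)
    have b3 : (1 - 2 * η) * ((1 + η) * Y2) ≤ (1 - η) * Y2 := by
      have := mul_nonneg (mul_nonneg h0.le h0.le) X2
      linarith
    have b4 : 2 * η * ((1 + η) * YH) ≤ 2 * YH := by nlinarith [mul_nonneg h0.le XH]
    nlinarith
  · rw [hz]
    nlinarith

omit h0 h1 in
theorem card_pos : (0 : ℝ) < Fintype.card (Fin m → Fin (2 * L)) := by
  have : Nonempty (Fin (2 * L)) := ⟨⟨0, by omega⟩⟩
  exact_mod_cast Fintype.card_pos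

/-- The distribution. -/
noncomputable def dist (m : ℕ) : Dist (m + 2) :=
  law (Ω := (Fin m → Fin (2 * L)) × Bool)
    (fun ω => (bif ω.2 then η * (1 + sgn ω.1) else 1 - η * (1 + sgn ω.1)) /
      Fintype.card (Fin m → Fin (2 * L)))
    (by
      rintro ⟨z, b⟩
      refine div_nonneg ?_ (card_pos hL).le
      cases b <;> rcases sgn_cases z with hz | hz <;> simp only [hz, cond_true, cond_false] <;>
        linarith)
    (by
      rw [Fintype.sum_prod_type]
      simp only [Fintype.sum_bool, cond_true, cond_false]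
      have hc := card_pos (m := m) hL
      have : ∀ z : Fin m → Fin (2 * L), η * (1 + sgn z) / (Fintype.card (Fin m → Fin (2 * L))) +
          (1 - η * (1 + sgn z)) / (Fintype.card (Fin m → Fin (2 * L))) =
          1 / (Fintype.card (Fin m → Fin (2 * L)) : ℝ) := by
        intro z
        rw [← add_div]
        congr 1
        ring
      simp only [this, Finset.sum_const, Finset.card_univ, nsmul_eq_mul]
      exact mul_one_div_cancel hc.ne')
    (fun ω => val (bif ω.2 then 1 / η else 2) (kv η ω.1))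
    (by
      rintro ⟨z, b⟩ i
      refine val_pos hL h0 ?_ z i
      cases b
      · norm_num
      · simp only [cond_true]; positivity)

theorem dist_E (f : (Fin (m + 2) → ℝ) → ℝ) : (dist hL h0 h1 m).E f =
    (∑ z : Fin m → Fin (2 * L), ((1 - η * (1 + sgn z)) * f (val 2 (kv η z)) +
      η * (1 + sgn z) * f (val (1 / η) (kv η z)))) / Fintype.card (Fin m → Fin (2 * L)) := by
  unfold dist
  rw [law_E, Fintype.sum_prod_type, Finset.sum_div]
  refine Finset.sum_congr rfl fun z _ => ?_
  simp only [Fintype.sum_bool, cond_true, cond_false]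
  ring

theorem gt_one {v : Fin (m + 2) → ℝ} (hv : v ∈ (dist hL h0 h1 m).supp) {i : Fin (m + 2)}
    (hi : i ≠ Fin.last (m + 1)) : 1 < v i := by
  obtain ⟨⟨z, b⟩, rfl⟩ := law_supp _ _ _ _ _ hv
  rcases fin_cases i with rfl | ⟨l, rfl⟩ | rfl
  · simp only [val_zero]
    cases b
    · norm_num
    · simp only [cond_true]
      rw [lt_div_iff₀ h0]
      linarith
  · simp only [val_key]
    exact kv_gt hL h0 z l
  · exact absurd rfl hi

theorem last_eq_one {v : Fin (m + 2) → ℝ} (hv : v ∈ (dist hL h0 h1 m).supp) :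
    v (Fin.last (m + 1)) = 1 := by
  obtain ⟨⟨z, b⟩, rfl⟩ := law_supp _ _ _ _ _ hv
  simp

theorem top_eq {v : Fin (m + 2) → ℝ} (hv : v ∈ (dist hL h0 h1 m).supp) :
    top (m + 1) v = univ.erase (Fin.last (m + 1)) := by
  classical
  have g1 : ∀ i, i ≠ Fin.last (m + 1) → 1 < v i := fun i hi => gt_one hL h0 h1 hv hi
  have g2 := last_eq_one hL h0 h1 hv
  ext i
  unfold top
  rw [Finset.mem_filter, Finset.mem_erase]
  simp only [Finset.mem_univ, true_and, and_true]
  constructor
  · rintro h rfl
    have h2 : univ.erase (Fin.last (m + 1)) ⊆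
        univ.filter fun j => v (Fin.last (m + 1)) < v j ∨
          v j = v (Fin.last (m + 1)) ∧ j < Fin.last (m + 1) := by
      intro j hj
      rw [Finset.mem_filter]
      refine ⟨Finset.mem_univ _, Or.inl ?_⟩
      rw [g2]
      exact g1 j (Finset.ne_of_mem_erase hj)
    have h3 := Finset.card_le_card h2
    rw [Finset.card_erase_of_mem (Finset.mem_univ _), Finset.card_univ, Fintype.card_fin] at h3
    have h4 := lt_of_le_of_lt h3 (by convert h)
    omega
  · intro hi
    have h2 : (univ.filter fun j => v i < v j ∨ v j = v i ∧ j < i) ⊆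
        (univ.erase (Fin.last (m + 1))).erase i := by
      intro j hj
      rw [Finset.mem_filter] at hj
      have hj := hj.2
      rw [Finset.mem_erase, Finset.mem_erase]
      refine ⟨?_, ?_, Finset.mem_univ _⟩
      · rintro rfl
        rcases hj with h | ⟨-, h⟩ <;> exact lt_irrefl _ h
      · rintro rfl
        have := g1 i hi
        rw [g2] at hj
        rcases hj with h | ⟨h, -⟩ <;> linarith
    have h3 := Finset.card_le_card h2
    rw [Finset.card_erase_of_mem (Finset.mem_erase.2 ⟨hi, Finset.mem_univ _⟩),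
      Finset.card_erase_of_mem (Finset.mem_univ _), Finset.card_univ, Fintype.card_fin] at h3
    have h4 : (univ.filter fun j => v i < v j ∨ v j = v i ∧ j < i).card < m + 1 := by omega
    convert h4

/-- The revenue of `offer`. -/
theorem offer_E (hm : 0 < m) : (dist hL h0 h1 m).E (offer m η L).rev = 5 / 2 - η := by
  rw [dist_E]
  have hc := card_pos (m := m) hL
  simp only [offer_z hL h0 h1]
  rw [div_eq_iff hc.ne']
  have e : ∀ z : Fin m → Fin (2 * L), 2 + (1 - 2 * η) * (1 + sgn z) / 2 =
      (5 / 2 - η) + (1 / 2 - η) * sgn z := fun z => by ring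
  simp only [e]
  rw [Finset.sum_add_distrib, ← Finset.mul_sum, sum_sgn ⟨0, hm⟩ hL]
  simp only [Finset.sum_const, Finset.card_univ, nsmul_eq_mul]
  ring

/-- The revenue of a mechanism for the `k` highest bidders. -/
theorem rev_E {M : Mechanism (m + 2)} (hM : M.Valid)
    (hl : ∀ v, (∀ i, 0 < v i) → M.x v (Fin.last (m + 1)) = 0 ∧ M.p v (Fin.last (m + 1)) = 0) :
    (dist hL h0 h1 m).E M.rev ≤ 2 + m / (2 * L : ℕ) := by
  rw [dist_E]
  have hc := card_pos (m := m) hL
  have h2 := twoL_pos hL
  rw [div_le_iff₀ hc]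
  refine (Finset.sum_le_sum fun z _ => rev_z hL h0 h1 hM hl z).trans ?_
  rw [Finset.sum_add_distrib, ← Finset.mul_sum, Finset.sum_comm]
  have h3 : ∀ i : Fin m, ∑ z : Fin m → Fin (2 * L), sgn z * M.x (val 2 (kv η z)) (key i) ≤
      (Fintype.card (Fin m → Fin (2 * L)) : ℝ) / (2 * L : ℕ) := by
    intro i
    refine sum_sgn_mul i hL (fun z => M.x (val 2 (kv η z)) (key i)) ?_ ?_ ?_
    · intro z
      exact hM.nonneg _ (val_pos hL h0 (by norm_num) z) _
    · intro z
      exact (Finset.single_le_sum (f := M.x (val 2 (kv η z)))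
        (fun j _ => hM.nonneg _ (val_pos hL h0 (by norm_num) z) j)
        (Finset.mem_univ _)).trans (hM.sum_le _ (val_pos hL h0 (by norm_num) z))
    · intro z j j' hj
      have e : val 2 (kv η (Function.update z i j')) =
          Function.update (val 2 (kv η (Function.update z i j))) (key i)
            (1 + η * ((j' : ℕ) + 1) / (2 * L : ℕ)) := by
        rw [update_key, kv_update, kv_update, Function.update_idem]
      simp only
      rw [e]
      refine hM.mono (val_pos hL h0 (by norm_num) _) _ ?_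
      rw [val_key, kv_update, Function.update_self]
      have h5 : ((j : ℕ) : ℝ) ≤ (j' : ℕ) := by exact_mod_cast hj
      gcongr
  have h4 : ∑ i : Fin m, ∑ z : Fin m → Fin (2 * L), sgn z * M.x (val 2 (kv η z)) (key i) ≤
      m * ((Fintype.card (Fin m → Fin (2 * L)) : ℝ) / (2 * L : ℕ)) := by
    refine (Finset.sum_le_sum fun i _ => h3 i).trans ?_
    simp
  have h5 : (1 - η) * ∑ i : Fin m, ∑ z : Fin m → Fin (2 * L),
      sgn z * M.x (val 2 (kv η z)) (key i) ≤
      m * ((Fintype.card (Fin m → Fin (2 * L)) : ℝ) / (2 * L : ℕ)) := by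
    have h6 : 0 ≤ m * ((Fintype.card (Fin m → Fin (2 * L)) : ℝ) / (2 * L : ℕ)) := by positivity
    have h7 := mul_le_mul_of_nonneg_left h4 (show 0 ≤ 1 - η by linarith)
    nlinarith
  simp only [Finset.sum_const, Finset.card_univ, nsmul_eq_mul]
  have h8 : (2 + (m : ℝ) / (2 * L : ℕ)) * (Fintype.card (Fin m → Fin (2 * L)) : ℝ) =
      (Fintype.card (Fin m → Fin (2 * L)) : ℝ) * 2 +
        m * ((Fintype.card (Fin m → Fin (2 * L)) : ℝ) / (2 * L : ℕ)) := by ring
  rw [h8]
  linarith

theorem famRev_le {M : Finset (Fin (m + 2)) → Mechanism (m + 2)} (hM : IsFamily M) :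
    famRev (m + 1) (dist hL h0 h1 m) M ≤ 2 + m / (2 * L : ℕ) := by
  have e : famRev (m + 1) (dist hL h0 h1 m) M =
      (dist hL h0 h1 m).E (M (univ.erase (Fin.last (m + 1)))).rev := by
    unfold famRev Dist.E
    refine Finset.sum_congr rfl fun v hv => ?_
    simp only [top_eq hL h0 h1 hv]
  rw [e]
  exact rev_E hL h0 h1 (hM _).1 fun v hv => (hM _).2 v hv _ (by simp)

end Param

theorem explicit (k : ℕ) (hk : 2 ≤ k) (c : ℝ) (hc : 4 / 5 < c) :
    ∃ (D : Dist (k + 1)) (M₀ : Mechanism (k + 1)), M₀.Valid ∧ 0 < D.E M₀.rev ∧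
      (∀ v ∈ D.supp, ∀ i, i ≠ Fin.last k → v (Fin.last k) < v i) ∧
      ∀ M : Finset (Fin (k + 1)) → Mechanism (k + 1), IsFamily M →
        famRev k D M ≤ c * D.E M₀.rev := by
  obtain ⟨m, rfl⟩ : ∃ m, k = m + 1 := ⟨k - 1, by omega⟩
  have hm : 0 < m := by omega
  obtain ⟨δ, hδ, rfl⟩ : ∃ δ : ℝ, 0 < δ ∧ c = 4 / 5 + δ := ⟨c - 4 / 5, by linarith, by ring⟩
  obtain ⟨L, hL⟩ := exists_nat_gt ((m : ℝ) / δ)
  have hL1 : (0 : ℝ) < L := lt_of_le_of_lt (by positivity) hL
  have hL0 : 0 < L := by exact_mod_cast hL1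
  have h0 : 0 < min (1 / 4) δ := lt_min (by norm_num) hδ
  have h1 : min (1 / 4) δ ≤ 1 / 4 := min_le_left _ _
  have h2 : min (1 / 4) δ ≤ δ := min_le_right _ _
  generalize min (1 / 4) δ = η at h0 h1 h2
  refine ⟨dist hL0 h0 h1 m, offer m η L, offer_valid, ?_, ?_, ?_⟩
  · rw [offer_E hL0 h0 h1 hm]
    linarith
  · intro v hv i hi
    rw [last_eq_one hL0 h0 h1 hv]
    exact gt_one hL0 h0 h1 hv hi
  · intro M hM
    refine (famRev_le hL0 h0 h1 hM).trans ?_
    rw [offer_E hL0 h0 h1 hm]
    have h3 : (m : ℝ) / (2 * L : ℕ) ≤ δ := by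
      rw [div_lt_iff₀ hδ] at hL
      rw [div_le_iff₀ (twoL_pos hL0)]
      push_cast
      nlinarith
    nlinarith

/-- For every `k ≥ 2` and `c > 4/5` there are a distribution of the valuations of `k + 1` bidders, of
which the last one always has the smallest valuation, and a truthful and individually rational
mechanism of positive expected revenue, such that every family of truthful and individually rational
mechanisms for the `k` highest bidders has at most `c` times its expected revenue. Hence `ρ_k ≤ 4/5` for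
every `k ≥ 2`, and `ρ_k` does not tend to `1`. -/
theorem result :
    (∀ k : ℕ, 2 ≤ k → ∀ c : ℝ, 4 / 5 < c →
      ∃ (D : Dist (k + 1)) (M₀ : Mechanism (k + 1)), M₀.Valid ∧ 0 < D.E M₀.rev ∧
        (∀ v ∈ D.supp, ∀ i, i ≠ Fin.last k → v (Fin.last k) < v i) ∧
        ∀ M : Finset (Fin (k + 1)) → Mechanism (k + 1), IsFamily M →
          famRev k D M ≤ c * D.E M₀.rev) ∧
    (∀ k : ℕ, 2 ≤ k → ratio k ≤ 4 / 5) ∧
    ¬ Tendsto ratio atTop (𝓝 1) := by
  have key : ∀ k : ℕ, 2 ≤ k → ratio k ≤ 4 / 5 := by
    intro k hk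
    refine le_of_forall_pos_le_add fun δ hδ => ?_
    obtain ⟨D, M₀, h1, h2, -, h3⟩ := explicit k hk (4 / 5 + δ) (by linarith)
    have h4 := ratio_le k D h2 (revLookahead_le k D h3) (le_OPT D h1)
    rwa [mul_div_assoc, div_self h2.ne', mul_one] at h4
  refine ⟨explicit, key, fun h => ?_⟩
  have h1 : (1 : ℝ) ≤ 4 / 5 := le_of_tendsto h (eventually_atTop.2 ⟨2, fun k hk => key k hk⟩)
  norm_num at h1

end Pool.Agent.Results.MP_0f9109_lc.RatioBounded
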